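import Mathlib

/-!
# Erdős–Turán, order two: definitions and the list of lemmas

Definitions and the statements (as `Prop`s) of the lemmas used in the proof that an asymptotic
basis of order 2 has infinitely many `n` with at least 4 unordered representations.
-/

set_option autoImplicit false

open MeasureTheory

namespace Pool.Agent.W92.ET

noncomputable section

def pp (u z : ℝ) : ℝ := (45 + 23 * z - 22 * z ^ 2 + 12 * z ^ 3 + u ^ 2 * (11 - 11 * z)) / 60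

def qq (u z : ℝ) : ℝ := u * (36 - 15 * z + 13 * z ^ 2 - 12 * u ^ 2) / 60

def GG (X V : ℝ) : ℝ :=
  7159 / 14400 - 167 / 2880 * V + 463 / 1200 * V ^ 2 - 9 / 40 * V ^ 3
    + 667 / 9600 * X - 19 / 1600 * X * V + 433 / 640 * X * V ^ 2
    - 3761 / 9600 * X ^ 2 - 433 / 640 * X ^ 2 * V + 9 / 40 * X ^ 3

/-- The kernel. -/
def kk (y y' : ℝ) : ℝ := 2 / (y + y') * GG ((2 / (y + y')) ^ 2) (((y' - y) / (y + y')) ^ 2)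

def HH (y : ℝ) : ℝ := ∫ τ in Set.Ioi (0 : ℝ), kk y (Real.cosh τ)

def EE : ℝ := ∫ τ in Set.Ioi (0 : ℝ), HH (Real.cosh τ)

def PP (r : ℝ) : ℝ :=
  19 / 60 + 2023 / 300 * r - 6559 / 400 * r ^ 2 + 157 / 10 * r ^ 3 - 259 / 40 * r ^ 4
    + 21 / 16 * r ^ 5

def hc (k : ℕ) : ℝ := ∫ s in (0 : ℝ)..1, PP (s ^ 2) * s ^ (2 * k)

def cc (k : ℕ) : ℝ := (Nat.centralBinom k : ℝ) / 4 ^ k

def Phi (m : ℕ) (y : ℝ) : ℝ := ∫ τ in Set.Ioi (0 : ℝ), 1 / (y + Real.cosh τ) ^ (m + 1)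

/-- (1) Laplace form of the kernel. -/
def S_lap : Prop := ∀ y y' : ℝ, 0 < y → 0 < y' →
  IntegrableOn (fun u : ℝ => (pp u (u * y) * pp u (u * y') + qq u (u * y) * qq u (u * y'))
    * Real.exp (-(u * (y + y')))) (Set.Ioi 0) ∧
  ∫ u in Set.Ioi (0 : ℝ), (pp u (u * y) * pp u (u * y') + qq u (u * y) * qq u (u * y'))
    * Real.exp (-(u * (y + y'))) = kk y y'

/-- (1b) Pointwise bounds. -/
def S_bd : Prop := ∃ C : ℝ, 0 < C ∧ ∀ u τ : ℝ, 0 < u → 0 ≤ τ →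
  |pp u (u * Real.cosh τ)| * Real.exp (-(u * Real.cosh τ))
    ≤ C * (u ^ (-(1 / 4 : ℝ)) * Real.exp (-(u / 4))) * Real.exp (-(τ / 4)) ∧
  |qq u (u * Real.cosh τ)| * Real.exp (-(u * Real.cosh τ))
    ≤ C * (u ^ (-(1 / 4 : ℝ)) * Real.exp (-(u / 4))) * Real.exp (-(τ / 4))

/-- (2) Positivity against the comparison measure `β dτ`. -/
def S_psd : Prop := ∀ (s : Finset ℕ) (y : ℕ → ℝ) (β : ℝ), (∀ i ∈ s, 1 ≤ y i) →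
  0 ≤ ∑ i ∈ s, ∑ j ∈ s, kk (y i) (y j) - 2 * β * ∑ i ∈ s, HH (y i) + β ^ 2 * EE

/-- (3) Base evaluation of the integral of `1/(y+cosh τ)`. -/
def S_Phi0 : Prop := ∀ y : ℝ, 1 < y →
  IntegrableOn (fun τ : ℝ => 1 / (y + Real.cosh τ)) (Set.Ioi 0) ∧
  y * Phi 0 y = ∫ s in (0 : ℝ)..1, 1 / (1 - (1 - 1 / y ^ 2) * s ^ 2)

/-- (4) Recurrences for the integrals of `1/(y+cosh τ)^(m+1)`. -/
def S_Phirec : Prop := ∀ y : ℝ, 1 < y →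
  (∀ m : ℕ, IntegrableOn (fun τ : ℝ => 1 / (y + Real.cosh τ) ^ (m + 1)) (Set.Ioi 0)) ∧
  (y ^ 2 - 1) * Phi 1 y = y * Phi 0 y - 1 ∧
  ∀ l : ℕ, ((l : ℝ) + 2) * (y ^ 2 - 1) * Phi (l + 2) y
    = (2 * (l : ℝ) + 3) * y * Phi (l + 1) y - ((l : ℝ) + 1) * Phi l y

/-- The combination of the `Phi`s that gives `y * HH y` (`w = 1/y^2`, `F m = y^(m+1) * Phi m y`). -/
def LL (w : ℝ) (F : ℕ → ℝ) : ℝ :=
  6 / 5 * F 0 - 557 / 1800 * F 1 + (-16099 / 1800 + 881 / 150 * w) * F 2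
    + (3548 / 75 - 1073 / 25 * w) * F 3
    + (-7174 / 75 + 3238 / 25 * w - 2564 / 75 * w ^ 2) * F 4
    + (432 / 5 - 866 / 5 * w + 433 / 5 * w ^ 2) * F 5
    + (-144 / 5 + 433 / 5 * w - 433 / 5 * w ^ 2 + 144 / 5 * w ^ 3) * F 6

/-- (5a) `HH` in terms of `Phi`. -/
def S_HHa : Prop := ∀ y : ℝ, 1 < y →
  (∀ m : ℕ, IntegrableOn (fun τ : ℝ => 1 / (y + Real.cosh τ) ^ (m + 1)) (Set.Ioi 0)) →
  IntegrableOn (fun τ : ℝ => kk y (Real.cosh τ)) (Set.Ioi 0) ∧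
  y * HH y = LL (1 / y ^ 2) (fun m => y ^ (m + 1) * Phi m y)

/-- (5b) The algebra. -/
def S_HHb : Prop := ∀ (z : ℝ) (F : ℕ → ℝ), 0 < z → z < 1 →
  F 0 = (∫ s in (0 : ℝ)..1, 1 / (1 - z * s ^ 2)) → z * F 1 = F 0 - 1 →
  (∀ l : ℕ, ((l : ℝ) + 2) * z * F (l + 2) = (2 * (l : ℝ) + 3) * F (l + 1) - ((l : ℝ) + 1) * F l) →
  LL (1 - z) F = ∫ s in (0 : ℝ)..1, PP (s ^ 2) / (1 - z * s ^ 2)

/-- (5) Integral formula for `HH`. -/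
def S_HH : Prop := ∀ y : ℝ, 1 < y →
  IntegrableOn (fun τ : ℝ => kk y (Real.cosh τ)) (Set.Ioi 0) ∧
  y * HH y = ∫ s in (0 : ℝ)..1, PP (s ^ 2) / (1 - (1 - 1 / y ^ 2) * s ^ 2)

/-- (6) Lower bound for `HH`. -/
def S_HHlb : Prop := ∀ y : ℝ, 1 < y → ∀ K : ℕ,
  ∑ k ∈ Finset.range (K + 1), hc k * (1 - 1 / y ^ 2) ^ k ≤ y * HH y

/-- (7) Value of `EE`. -/
def S_EE : Prop := EE = Real.pi ^ 2 * (306589 / 1228800)

/-- (8) The limit of the partial sums. -/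
def S_lim : Prop := Filter.Tendsto (fun K : ℕ => ∑ k ∈ Finset.range (K + 1), hc k * cc k)
  Filter.atTop (nhds (Real.pi * (306589 / 614400)))

/-- (9) The ladder of positive kernels. -/
def S_ladder : Prop := ∀ A : Finset ℕ, (∀ a ∈ A, 0 < a) → ∀ k : ℕ,
  0 ≤ ∑ a ∈ A, ∑ b ∈ A, 1 / ((a : ℝ) + b) * ((4 * a * b / ((a : ℝ) + b) ^ 2) ^ k - cc k)

/-! ### Finite sets -/

/-- Elements `b` of `A` with `b + d ∈ A`. -/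
def Bd (A : Finset ℕ) (d : ℕ) : Finset ℕ := A.filter (fun b => b + d ∈ A)

/-- Pairs `a < b` in `A`. -/
def Pr (A : Finset ℕ) : Finset (ℕ × ℕ) := (A ×ˢ A).filter (fun x => x.1 < x.2)

/-- Number of pairs `a < b` in `A` with `a + b = n`. -/
def rs (A : Finset ℕ) (n : ℕ) : ℕ := ((Pr A).filter (fun x => x.1 + x.2 = n)).card

def RR (A : Finset ℕ) : ℝ := ∑ x ∈ Pr A, 1 / ((x.1 : ℝ) + x.2)

/-- The energy. -/
def EN (A : Finset ℕ) (N : ℕ) : ℝ :=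
  ∑ d ∈ Finset.Icc 1 N, ∑ b ∈ Bd A d, ∑ b' ∈ Bd A d,
    1 / (d : ℝ) * kk ((2 * b + d) / d) ((2 * b' + d) / d)

/-- (10) Lower bound for the energy, from (2). -/
def S_energy : Prop := ∀ (A : Finset ℕ) (N : ℕ), (∀ a ∈ A, 1 ≤ a ∧ a ≤ N) → ∀ β : ℝ,
  2 * β * ∑ x ∈ Pr A, 1 / ((x.2 : ℝ) - x.1) * HH (((x.1 : ℝ) + x.2) / (x.2 - x.1))
    - β ^ 2 * EE * ∑ d ∈ Finset.Icc 1 N, 1 / (d : ℝ) ≤ EN A N

/-- (11) Upper bound for the energy, by symmetry of quadruples. -/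
def S_quad : Prop := ∀ (A : Finset ℕ) (N : ℕ), (∀ a ∈ A, 1 ≤ a ∧ a ≤ N) →
  EN A N ≤ ∑ x ∈ Pr A, 1 / ((x.1 : ℝ) + x.2) * GG ((((x.2 : ℝ) - x.1) / (x.1 + x.2)) ^ 2) 0
    + ∑ n ∈ Finset.Icc 1 (2 * N), 1 / (n : ℝ) * ((rs A n : ℝ) * ((rs A n : ℝ) - 1)
      + if (∃ a ∈ A, 2 * a = n) then (rs A n : ℝ) else 0)

/-- The constant `β`. -/
def bet : ℝ := 34675 / 10000 / Real.pi

/-- (12) First moment inequality, from (6), (8), (9). -/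
def S_first : Prop := ∃ g C : ℝ, 0 < g ∧ ∀ A : Finset ℕ, (∀ a ∈ A, 0 < a) →
  g * RR A - C * ∑ a ∈ A, 1 / (a : ℝ) ≤
    2 * bet * ∑ x ∈ Pr A, 1 / ((x.2 : ℝ) - x.1) * HH (((x.1 : ℝ) + x.2) / (x.2 - x.1))
    - ∑ x ∈ Pr A, 1 / ((x.1 : ℝ) + x.2) *
      (GG ((((x.2 : ℝ) - x.1) / (x.1 + x.2)) ^ 2) 0 + 3)

/-- Number of unordered representations of `n` as a sum of two elements of `A`. -/
def uc (A : Set ℕ) (n : ℕ) : ℕ :=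
  Set.ncard {p : ℕ × ℕ | p.1 ∈ A ∧ p.2 ∈ A ∧ p.1 ≤ p.2 ∧ p.1 + p.2 = n}

/-- Truncation of `A` to `[1, N]`. -/
def tr (A : Set ℕ) (N : ℕ) : Finset ℕ := by
  classical exact (Finset.Icc 1 N).filter (fun a => a ∈ A)

/-- (13) The sum of reciprocals converges. -/
def S_recip : Prop := ∀ (A : Set ℕ) (n₀ : ℕ), (∀ n, n₀ ≤ n → uc A n ≤ 3) →
  ∃ C : ℝ, ∀ N : ℕ, ∑ a ∈ tr A N, 1 / (a : ℝ) ≤ C

/-- (14) Counting: consequences of `1 ≤ r ≤ 3`. -/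
def S_count : Prop := ∀ (A : Set ℕ) (n₀ : ℕ), 0 ∉ A →
  (∀ n, n₀ ≤ n → 1 ≤ uc A n ∧ uc A n ≤ 3) →
  (∀ C' : ℝ, (∀ N : ℕ, ∑ a ∈ tr A N, 1 / (a : ℝ) ≤ C') →
  ∃ C : ℝ, ∀ N : ℕ, 1 ≤ N →
    (∑ n ∈ Finset.Icc 1 (2 * N), 1 / (n : ℝ) * ((rs (tr A N) n : ℝ) * ((rs (tr A N) n : ℝ) - 1)
      + if (∃ a ∈ tr A N, 2 * a = n) then (rs (tr A N) n : ℝ) else 0)
      ≤ 3 * RR (tr A N) - 3 * Real.log N + C) ∧
    Real.log N - C ≤ RR (tr A N))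

/-- (15) The contradiction. -/
def S_main : Prop := ∀ (A : Set ℕ) (n₀ : ℕ), 0 ∉ A →
  (∀ n, n₀ ≤ n → 1 ≤ uc A n ∧ uc A n ≤ 3) → False

end

end Pool.Agent.W92.ET
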