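import Pool.Agent.W92.ET.Base

/-!
# Erdős–Turán, order two: the quantitative version
-/

set_option autoImplicit false

namespace Pool.Agent.W92.ET

noncomputable section

/-- (13') The sum of reciprocals converges. -/
def S_recip2 : Prop := ∀ (A : Set ℕ) (n₀ K : ℕ), (∀ n, n₀ ≤ n → uc A n ≤ K) →
  ∃ C : ℝ, ∀ N : ℕ, ∑ a ∈ tr A N, 1 / (a : ℝ) ≤ C

/-- (14') Counting: consequences of `1 ≤ r ≤ K`. -/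
def S_count2 : Prop := ∀ (A : Set ℕ) (n₀ K : ℕ), 0 ∉ A →
  (∀ n, n₀ ≤ n → 1 ≤ uc A n ∧ uc A n ≤ K) →
  (∀ C' : ℝ, (∀ N : ℕ, ∑ a ∈ tr A N, 1 / (a : ℝ) ≤ C') →
  ∃ C : ℝ, ∀ N : ℕ, 1 ≤ N →
    (∑ n ∈ Finset.Icc 1 (2 * N), 1 / (n : ℝ) * ((rs (tr A N) n : ℝ) * ((rs (tr A N) n : ℝ) - 1)
      + if (∃ a ∈ tr A N, 2 * a = n) then (rs (tr A N) n : ℝ) else 0)
      ≤ 3 * RR (tr A N) - 3 * Real.log N
        + ∑ n ∈ Finset.Icc 1 N, 1 / (n : ℝ) * (((uc A n : ℝ) - 1) * ((uc A n : ℝ) - 3)) + C) ∧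
    Real.log N - C ≤ RR (tr A N))

/-- (15') The quantitative theorem. -/
def S_main2 : Prop := ∃ g : ℝ, 0 < g ∧ ∀ (A : Set ℕ) (n₀ K : ℕ), 0 ∉ A →
  (∀ n, n₀ ≤ n → 1 ≤ uc A n ∧ uc A n ≤ K) → ∃ C : ℝ, ∀ N : ℕ, 1 ≤ N →
    g * Real.log N - C ≤
      ∑ n ∈ Finset.Icc 1 N, 1 / (n : ℝ) * (((uc A n : ℝ) - 1) * ((uc A n : ℝ) - 3))

end

end Pool.Agent.W92.ET
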